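import Pool.Agent.H317.GH.Stm

set_option autoImplicit false

namespace Pool.Agent.H363.GH

open Matrix Module Pool.Agent.H317.GR Pool.Agent.H317.GH

theorem nfc : S_IRN → S_CNJ → S_NFC := by
  intro hIRN hCNJ n hn Λ _ _ hQ K _ _ _ τ hinf hmem
  obtain ⟨ρ, hfin, htr⟩ := hmem
  have hne : ∃ g, τ g ≠ 1 := by
    by_contra hc
    have h1 : ∀ g, τ g = 1 := fun g => by
      by_contra h
      exact hc ⟨g, h⟩
    apply hinf
    refine (Set.finite_singleton (1 : GL (Fin n) K)).subset ?_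
    rintro _ ⟨g, rfl⟩
    exact h1 g
  obtain ⟨P, hP⟩ := hCNJ K Λ n τ ρ (hIRN n hn Λ hQ K τ hne) htr
  apply hinf
  have hfs : (Set.range ρ).Finite := by
    have h2 : ((ρ.range : Subgroup (GL (Fin n) K)) : Set (GL (Fin n) K)).Finite := Set.toFinite _
    rwa [MonoidHom.coe_range] at h2
  refine (hfs.image fun x => P⁻¹ * x * P).subset ?_
  rintro _ ⟨g, rfl⟩
  refine ⟨ρ g, ⟨g, rfl⟩, ?_⟩
  show P⁻¹ * ρ g * P = τ g
  rw [mul_assoc, hP g, inv_mul_cancel_left]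

end Pool.Agent.H363.GH
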